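import Mathlib

/-!
# Small tools for explicit tree decompositions (helper839)

Trees given by a parent function, and connectedness of parent-closed vertex sets.
-/

namespace Run7.h839

open SimpleGraph

/-- The graph of a parent function. -/
def parGraph {n : ℕ} (p : Fin n → Fin n) : SimpleGraph (Fin n) where
  Adj i j := i ≠ j ∧ (p i = j ∨ p j = i)
  symm := ⟨fun _ _ h => ⟨h.1.symm, h.2.symm⟩⟩
  loopless := ⟨fun _ h => h.1 rfl⟩

instance {n : ℕ} (p : Fin n → Fin n) : DecidableRel (parGraph p).Adj := fun i j =>
  inferInstanceAs (Decidable (i ≠ j ∧ (p i = j ∨ p j = i)))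

/-- A vertex set which has a root and is closed under taking parents off the root is connected. -/
theorem parGraph_induce_connected {n : ℕ} (p : Fin n → Fin n) (S : Set (Fin n)) (r : Fin n)
    (hr : r ∈ S) (h : ∀ x ∈ S, x ≠ r → p x ∈ S ∧ p x < x) :
    ((parGraph p).induce S).Connected := by
  have key : ∀ m : ℕ, ∀ x : Fin n, ∀ hx : x ∈ S, x.val ≤ m →
      ((parGraph p).induce S).Reachable ⟨x, hx⟩ ⟨r, hr⟩ := by
    intro m
    induction m with
    | zero =>
      intro x hx hxm
      by_cases hxr : x = r
      · subst hxr; exact Reachable.refl _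
      · have := (h x hx hxr).2
        have h2 : (p x).val < x.val := this
        omega
    | succ m ih =>
      intro x hx hxm
      by_cases hxr : x = r
      · subst hxr; exact Reachable.refl _
      · obtain ⟨h1, h2⟩ := h x hx hxr
        have h3 : (p x).val < x.val := h2
        refine Reachable.trans (Adj.reachable ?_) (ih (p x) h1 (by omega))
        show (parGraph p).Adj x (p x)
        exact ⟨h2.ne', Or.inl rfl⟩
  have : Nonempty S := ⟨⟨r, hr⟩⟩
  rw [connected_iff]
  refine ⟨?_, inferInstance⟩
  intro x y
  exact (key _ x.1 x.2 le_rfl).trans (key _ y.1 y.2 le_rfl).symm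

/-- The graph of a parent function is a tree. -/
theorem parGraph_isTree {n : ℕ} (p : Fin (n + 1) → Fin (n + 1)) (h0 : p 0 = 0)
    (h : ∀ x, x ≠ 0 → p x < x) : (parGraph p).IsTree := by
  classical
  rw [isTree_iff_connected_and_card]
  constructor
  · have h1 := parGraph_induce_connected p Set.univ 0 (Set.mem_univ _)
      (fun x _ hx => ⟨Set.mem_univ _, h x hx⟩)
    exact (induceUnivIso (parGraph p)).connected_iff.1 h1
  · have hr : (parGraph p).edgeSet = (fun x : Fin (n + 1) => s(x, p x)) '' {x | x ≠ 0} := by
      ext e
      induction e with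
      | _ u v =>
        rw [mem_edgeSet]
        constructor
        · rintro ⟨hne, h1 | h1⟩
          · refine ⟨u, ?_, ?_⟩
            · rintro rfl
              exact hne (by rw [← h1, h0])
            · simp [h1]
          · refine ⟨v, ?_, ?_⟩
            · rintro rfl
              exact hne (by rw [← h1, h0])
            · simp [h1, Sym2.eq_swap]
        · rintro ⟨x, hx, hxe⟩
          simp only [Sym2.eq_iff] at hxe
          have hlt := h x hx
          rcases hxe with ⟨rfl, h2⟩ | ⟨rfl, h2⟩
          · exact ⟨by rw [← h2]; exact hlt.ne', Or.inl h2⟩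
          · exact ⟨by rw [← h2]; exact hlt.ne, Or.inr h2⟩
    have hinj : Set.InjOn (fun x : Fin (n + 1) => s(x, p x)) {x | x ≠ 0} := by
      intro x hx y hy hxy
      simp only [Sym2.eq_iff] at hxy
      rcases hxy with h1 | h1
      · exact h1.1
      · exfalso
        have hx' := h x hx
        have hy' := h y hy
        rw [← h1.1] at hy'
        rw [h1.2] at hx'
        exact absurd (hx'.trans hy') (lt_irrefl _)
    rw [hr, Nat.card_image_of_injOn hinj]
    have : Nat.card ({x : Fin (n + 1) | x ≠ 0} : Set (Fin (n + 1))) = n := by
      rw [Nat.card_eq_fintype_card, Fintype.card_ofFinset]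
      have h2 : (Finset.univ.filter (fun x : Fin (n + 1) => x ∈ {x : Fin (n + 1) | x ≠ 0}))
          = Finset.univ.erase 0 := by
        ext x; simp
      simp only [h2, Finset.card_erase_of_mem (Finset.mem_univ _), Finset.card_univ,
        Fintype.card_fin]
      omega
    rw [this]
    simp

end Run7.h839
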